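import Mathlib
import Pool.Agent.Helper21.SR.St

/-! Module BLK of project SR: blocks of consecutive slopes. -/

namespace Pool.Agent.Helper67.SR

open Finset
open scoped Pointwise
open Pool.Agent.Helper21.SR

theorem mem_Wset (Pt : ℝ → Finset ℝ) (B : Finset ℝ) (p : ℝ × ℝ) (hp : p ∈ Wset Pt B) :
    ∃ s ∈ B, ∃ t ∈ B, s < t ∧ ∃ x ∈ Pt s, ∃ y ∈ Pt t, p.1 = x + y ∧ p.2 = s * x + t * y := by
  unfold Wset at hp
  simp only [Finset.mem_biUnion, Finset.mem_filter, Finset.mem_product, Finset.mem_image] at hp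
  obtain ⟨q, ⟨⟨h1, h2⟩, h3⟩, z, ⟨h4, h5⟩, h6⟩ := hp
  exact ⟨q.1, h1, q.2, h2, h3, z.1, h4, z.2, h5, by rw [← h6], by rw [← h6]⟩

theorem hBlk : StBlk := by
  intro A Λ Pt M hA hΛ hPt hM hMle
  classical
  set n := #Λ with hn
  set f := Λ.orderEmbOfFin hn.symm with hf
  set g : ℕ → ℝ := fun j => if h : j < n then f ⟨j, h⟩ else 0 with hg
  have hgmem : ∀ j, j < n → g j ∈ Λ := by
    intro j hj
    rw [hg]
    simp only [hj, dif_pos]
    exact Finset.orderEmbOfFin_mem _ _ _
  have hgmono : ∀ i j, i < j → j < n → g i < g j := by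
    intro i j hij hj
    have hi : i < n := hij.trans hj
    rw [hg]
    simp only [hj, hi, dif_pos]
    exact f.strictMono hij
  set B : ℕ → Finset ℝ := fun i => (Finset.Ico (i * M) ((i + 1) * M)).image g with hB
  set q := n / M with hq
  have hq1 : 1 ≤ q := (Nat.one_le_div_iff (by omega)).2 hMle
  have hqM : q * M ≤ n := Nat.div_mul_le_self n M
  have hnq : n ≤ 2 * M * q := by
    have h1 : n < M * (q + 1) := Nat.lt_mul_div_succ n (by omega)
    have h2 : M * (q + 1) ≤ 2 * M * q := by nlinarith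
    omega
  have hidx : ∀ i, i < q → ∀ j ∈ Finset.Ico (i * M) ((i + 1) * M), j < n := by
    intro i hi j hj
    rw [Finset.mem_Ico] at hj
    have : (i + 1) * M ≤ q * M := Nat.mul_le_mul_right M hi
    omega
  have hBsub : ∀ i, i < q → B i ⊆ Λ := by
    intro i hi t ht
    obtain ⟨j, hj, rfl⟩ := Finset.mem_image.1 ht
    exact hgmem j (hidx i hi j hj)
  have hBcard : ∀ i, i < q → #(B i) = M := by
    intro i hi
    rw [hB]
    simp only []
    rw [Finset.card_image_of_injOn, Nat.card_Ico]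
    · have : (i + 1) * M = i * M + M := by ring
      omega
    · intro a ha b hb hab
      have ha' := hidx i hi a ha
      have hb' := hidx i hi b hb
      rcases lt_trichotomy a b with h | h | h
      · exact absurd hab (hgmono a b h hb').ne
      · exact h
      · exact absurd hab (hgmono b a h ha').ne'
  have hlt : ∀ i j, i < j → j < q → ∀ s ∈ B i, ∀ t ∈ B j, s < t := by
    intro i j hij hj s hs t ht
    obtain ⟨a, ha, rfl⟩ := Finset.mem_image.1 hs
    obtain ⟨b, hb, rfl⟩ := Finset.mem_image.1 ht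
    have hb' := hidx j hj b hb
    rw [Finset.mem_Ico] at ha hb
    have : (i + 1) * M ≤ j * M := Nat.mul_le_mul_right M hij
    exact hgmono a b (by omega) hb'
  have hpos : ∀ i, i < q → ∀ p ∈ Wset Pt (B i), 0 < p.1 ∧ ∃ s ∈ B i, ∃ t ∈ B i,
      s * p.1 < p.2 ∧ p.2 < t * p.1 := by
    intro i hi p hp
    obtain ⟨s, hs, t, ht, hst, x, hx, y, hy, h1, h2⟩ := mem_Wset Pt (B i) p hp
    have hx0 : 0 < x := hA _ (hPt s (hBsub i hi hs) x hx).1
    have hy0 : 0 < y := hA _ (hPt t (hBsub i hi ht) y hy).1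
    refine ⟨by rw [h1]; linarith, s, hs, t, ht, ?_, ?_⟩
    · rw [h1, h2]
      nlinarith
    · rw [h1, h2]
      nlinarith
  have hdisj : Set.PairwiseDisjoint (↑(Finset.range q)) (fun i => Wset Pt (B i)) := by
    have key : ∀ i j, i < j → j < q → Disjoint (Wset Pt (B i)) (Wset Pt (B j)) := by
      intro i j hij hj
      rw [Finset.disjoint_left]
      intro p hp1 hp2
      obtain ⟨h0, s, hs, t, ht, h1, h2⟩ := hpos i (hij.trans hj) p hp1
      obtain ⟨h0', s', hs', t', ht', h1', h2'⟩ := hpos j hj p hp2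
      have := hlt i j hij hj t ht s' hs'
      have := mul_lt_mul_of_pos_right this h0
      linarith
    intro i hi j hj hij
    rw [Finset.mem_coe, Finset.mem_range] at hi hj
    rcases lt_or_gt_of_ne hij with h | h
    · exact key i j h hj
    · exact (key j i h hi).symm
  have hsub : (Finset.range q).biUnion (fun i => Wset Pt (B i)) ⊆ (A + A) ×ˢ (A + A) := by
    intro p hp
    rw [Finset.mem_biUnion] at hp
    obtain ⟨i, hi, hp⟩ := hp
    rw [Finset.mem_range] at hi
    obtain ⟨s, hs, t, ht, hst, x, hx, y, hy, h1, h2⟩ := mem_Wset Pt (B i) p hp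
    have hx' := hPt s (hBsub i hi hs) x hx
    have hy' := hPt t (hBsub i hi ht) y hy
    rw [Finset.mem_product, h1, h2]
    exact ⟨Finset.add_mem_add hx'.1 hy'.1, Finset.add_mem_add hx'.2 hy'.2⟩
  have hsum : ∑ i ∈ Finset.range q, #(Wset Pt (B i)) ≤ #(A + A) ^ 2 := by
    rw [← Finset.card_biUnion (fun i hi j hj hij => hdisj hi hj hij)]
    refine (Finset.card_le_card hsub).trans (le_of_eq ?_)
    rw [Finset.card_product, sq]
  obtain ⟨i, hi, hmin⟩ := (Finset.range q).exists_min_image (fun i => #(Wset Pt (B i)))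
    ⟨0, Finset.mem_range.2 (by omega)⟩
  rw [Finset.mem_range] at hi
  refine ⟨B i, hBsub i hi, hBcard i hi, ?_⟩
  have h1 : q * #(Wset Pt (B i)) ≤ #(A + A) ^ 2 := by
    refine le_trans ?_ hsum
    have := Finset.card_nsmul_le_sum (Finset.range q) (fun i => #(Wset Pt (B i)))
      (#(Wset Pt (B i))) hmin
    rwa [Finset.card_range, smul_eq_mul] at this
  calc #(Wset Pt (B i)) * n ≤ #(Wset Pt (B i)) * (2 * M * q) := Nat.mul_le_mul_left _ hnq
    _ = 2 * M * (q * #(Wset Pt (B i))) := by ring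
    _ ≤ 2 * M * #(A + A) ^ 2 := Nat.mul_le_mul_left _ h1

end Pool.Agent.Helper67.SR
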