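import Mathlib
import Pool.Agent.Helper21.SR.St

/-! Module CNT of project SR: counting cells with the height gap. -/

namespace Pool.Agent.Helper67.SR

open Finset
open scoped Pointwise
open Pool.Agent.Helper21.SR
open Pool.Agent.Helper17.WES (D lam gap D_eq primesOf sub_primesOf D_nonneg lam_mul)

theorem cnt_cell {ι : Type} [DecidableEq ι] (F : Finset ι) (P Pg Dd : ι → ℝ) (T : ι → ι → ℝ)
    (M β : ℝ) (hP : ∀ i ∈ F, 0 ≤ Pg i ∧ Pg i ≤ P i) (hβ : ∀ i ∈ F, Pg i ≤ β) (hβ0 : 0 ≤ β)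
    (hM : 0 ≤ M) (hD : ∀ i ∈ F, 0 ≤ Dd i ∧ Dd i ≤ M)
    (hT : ∀ i ∈ F, ∀ j ∈ F, i ≠ j → Dd i + Dd j ≤ T i j)
    (hT0 : ∀ i ∈ F, ∀ j ∈ F, 0 ≤ T i j) :
    2 * ∑ i ∈ F, P i * Dd i - 2 * M * (β + ∑ i ∈ F, (P i - Pg i)) ≤
      (∑ i ∈ F, ∑ j ∈ F, P i * P j * T i j) / (∑ i ∈ F, P i) := by
  have hP0 : ∀ i ∈ F, 0 ≤ P i := fun i hi => (hP i hi).1.trans (hP i hi).2
  set W := ∑ i ∈ F, P i with hW
  have hW0 : 0 ≤ W := Finset.sum_nonneg hP0
  have h2 : 0 ≤ ∑ i ∈ F, (P i - Pg i) := Finset.sum_nonneg fun i hi => sub_nonneg.2 (hP i hi).2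
  rcases hW0.eq_or_lt with h0 | hpos
  · have hz : ∀ i ∈ F, P i = 0 := (Finset.sum_eq_zero_iff_of_nonneg hP0).1 h0.symm
    have h1 : ∑ i ∈ F, P i * Dd i = 0 :=
      Finset.sum_eq_zero fun i hi => by rw [hz i hi, zero_mul]
    rw [h1, ← h0, div_zero]
    have := mul_nonneg hM (add_nonneg hβ0 h2)
    linarith
  · rw [le_div_iff₀ hpos]
    have h1 : ∑ i ∈ F, ∑ j ∈ F, P i * P j * (if i = j then 0 else Dd i + Dd j) ≤
        ∑ i ∈ F, ∑ j ∈ F, P i * P j * T i j := by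
      refine Finset.sum_le_sum fun i hi => Finset.sum_le_sum fun j hj => ?_
      refine mul_le_mul_of_nonneg_left ?_ (mul_nonneg (hP0 i hi) (hP0 j hj))
      split_ifs with h
      · exact hT0 i hi j hj
      · exact hT i hi j hj h
    refine le_trans ?_ h1
    have h2 : ∀ i ∈ F, ∑ j ∈ F, P i * P j * (if i = j then (0:ℝ) else Dd i + Dd j) =
        P i * Dd i * W + P i * (∑ j ∈ F, P j * Dd j) - 2 * P i ^ 2 * Dd i := by
      intro i hi
      have : ∀ j ∈ F, P i * P j * (if i = j then (0:ℝ) else Dd i + Dd j) =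
          (P i * Dd i * P j + P i * (P j * Dd j)) -
            (if i = j then 2 * P i ^ 2 * Dd i else 0) := by
        intro j _
        split_ifs with h
        · subst h; ring
        · ring
      rw [Finset.sum_congr rfl this, Finset.sum_sub_distrib, Finset.sum_add_distrib,
        ← Finset.mul_sum, ← Finset.mul_sum, Finset.sum_ite_eq, if_pos hi]
    have h5 : ∑ i ∈ F, ∑ j ∈ F, P i * P j * (if i = j then (0:ℝ) else Dd i + Dd j) =
        (∑ i ∈ F, P i * Dd i) * W + W * (∑ j ∈ F, P j * Dd j) - ∑ i ∈ F, 2 * P i ^ 2 * Dd i := by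
      rw [Finset.sum_congr rfl h2, Finset.sum_sub_distrib, Finset.sum_add_distrib,
        ← Finset.sum_mul, ← Finset.sum_mul, ← hW]
    rw [h5]
    have h3 : ∑ i ∈ F, 2 * P i ^ 2 * Dd i ≤ 2 * M * (β + ∑ i ∈ F, (P i - Pg i)) * W := by
      have h4 : ∀ i ∈ F, 2 * P i ^ 2 * Dd i ≤
          (2 * M * β) * P i + (2 * M * W) * (P i - Pg i) := by
        intro i hi
        have hle : P i ≤ W := Finset.single_le_sum hP0 hi
        have a1 : P i ^ 2 * Dd i ≤ P i ^ 2 * M :=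
          mul_le_mul_of_nonneg_left (hD i hi).2 (sq_nonneg _)
        have a2 : Pg i * P i ≤ β * P i := mul_le_mul_of_nonneg_right (hβ i hi) (hP0 i hi)
        have a3 : (P i - Pg i) * P i ≤ (P i - Pg i) * W :=
          mul_le_mul_of_nonneg_left hle (sub_nonneg.2 (hP i hi).2)
        have a4 : P i ^ 2 ≤ β * P i + (P i - Pg i) * W := by nlinarith
        have a5 := mul_le_mul_of_nonneg_right a4 hM
        nlinarith
      calc _ ≤ _ := Finset.sum_le_sum h4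
        _ = _ := by
          rw [Finset.sum_add_distrib, ← Finset.mul_sum, ← Finset.mul_sum, ← hW]
          ring
    nlinarith

theorem div_aux (e a b : ℝ) : e * b ^ 2 / (a * b) = e / a * b := by
  rcases eq_or_ne b 0 with rfl | hb
  · simp
  · rcases eq_or_ne a 0 with rfl | ha
    · simp
    · field_simp

theorem swap4 {L1 L2 : Type} (A : Finset ℕ) (S1 : Finset L1) (S2 : Finset L2)
    (f : ℕ × ℕ → L1 → L2 → ℝ) :
    ∑ l ∈ S1, ∑ m ∈ S2, ∑ i ∈ A ×ˢ A, f i l m =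
      ∑ x ∈ A, ∑ y ∈ A, ∑ l ∈ S1, ∑ m ∈ S2, f (x, y) l m := by
  have h1 : ∀ l ∈ S1, ∑ m ∈ S2, ∑ i ∈ A ×ˢ A, f i l m =
      ∑ i ∈ A ×ˢ A, ∑ m ∈ S2, f i l m := fun l _ => Finset.sum_comm
  rw [Finset.sum_congr rfl h1, Finset.sum_comm, Finset.sum_product]

theorem keyimg (A : Finset ℕ) :
    (A ×ˢ A).image (fun i : ℕ × ℕ => i.1 + i.2) = A + A := rfl

theorem ener1 {L : Type} (A : Finset ℕ) (p : ℕ → L → ℝ) (l : L) (b : ℕ → ℝ) (h : ℕ → ℝ) :
    ∑ i ∈ A ×ˢ A, ∑ j ∈ A ×ˢ A, (p i.1 l * b i.2) * (p j.1 l * b j.2) * |h i.1 - h j.1| =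
      (∑ x ∈ A, ∑ y ∈ A, p x l * p y l * |h x - h y|) * (∑ x ∈ A, b x) ^ 2 := by
  have e1 : ∀ i ∈ A ×ˢ A, ∑ j ∈ A ×ˢ A, (p i.1 l * b i.2) * (p j.1 l * b j.2) * |h i.1 - h j.1| =
      b i.2 * ((∑ y ∈ A, p i.1 l * p y l * |h i.1 - h y|) * (∑ x ∈ A, b x)) := by
    intro i _
    rw [Finset.sum_product, Finset.sum_mul, Finset.mul_sum]
    refine Finset.sum_congr rfl fun y _ => ?_
    rw [Finset.mul_sum, Finset.mul_sum]
    refine Finset.sum_congr rfl fun z _ => ?_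
    ring
  rw [Finset.sum_congr rfl e1, Finset.sum_product, Finset.sum_mul]
  refine Finset.sum_congr rfl fun x _ => ?_
  simp only []
  rw [← Finset.sum_mul]
  ring

theorem ener2 {L : Type} (A : Finset ℕ) (q : ℕ → L → ℝ) (m : L) (b : ℕ → ℝ) (h : ℕ → ℝ) :
    ∑ i ∈ A ×ˢ A, ∑ j ∈ A ×ˢ A, (b i.1 * q i.2 m) * (b j.1 * q j.2 m) * |h i.2 - h j.2| =
      (∑ x ∈ A, ∑ y ∈ A, q x m * q y m * |h x - h y|) * (∑ x ∈ A, b x) ^ 2 := by
  have e1 : ∀ i ∈ A ×ˢ A, ∑ j ∈ A ×ˢ A, (b i.1 * q i.2 m) * (b j.1 * q j.2 m) * |h i.2 - h j.2| =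
      b i.1 * ((∑ y ∈ A, q i.2 m * q y m * |h i.2 - h y|) * (∑ x ∈ A, b x)) := by
    intro i _
    rw [Finset.sum_product_right, Finset.sum_mul, Finset.mul_sum]
    refine Finset.sum_congr rfl fun y _ => ?_
    rw [Finset.mul_sum, Finset.mul_sum]
    refine Finset.sum_congr rfl fun z _ => ?_
    ring
  rw [Finset.sum_congr rfl e1, Finset.sum_product_right, Finset.sum_mul]
  refine Finset.sum_congr rfl fun x _ => ?_
  simp only []
  rw [← Finset.sum_mul]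
  ring

theorem ener3 {L1 L2 : Type} (A : Finset ℕ) (p : ℕ → L1 → ℝ) (q : ℕ → L2 → ℝ) (l : L1) (m : L2)
    (h : ℕ → ℝ) :
    ∑ i ∈ A ×ˢ A, ∑ j ∈ A ×ˢ A, (p i.1 l * q i.2 m) * (p j.1 l * q j.2 m) *
        |(h i.1 - h i.2) - (h j.1 - h j.2)| =
      ∑ x ∈ A, ∑ y ∈ A, ∑ x' ∈ A, ∑ y' ∈ A,
        p x l * p y l * (q x' m * q y' m) * |(h x - h x') - (h y - h y')| := by
  rw [Finset.sum_product]
  refine Finset.sum_congr rfl fun x _ => ?_
  simp only [Finset.sum_product]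
  rw [Finset.sum_comm]
  refine Finset.sum_congr rfl fun y _ => ?_
  refine Finset.sum_congr rfl fun x' _ => ?_
  refine Finset.sum_congr rfl fun y' _ => ?_
  ring

theorem step (hRef : StRef) {L1 L2 : Type} (A : Finset ℕ)
    (p pg : ℕ → L1 → ℝ) (q qg : ℕ → L2 → ℝ) (M β : ℝ) (l : L1) (m : L2)
    (hpos : ∀ a ∈ A, 0 < a)
    (hp : ∀ x ∈ A, 0 ≤ pg x l ∧ pg x l ≤ p x l) (hq : ∀ x ∈ A, 0 ≤ qg x m ∧ qg x m ≤ q x m)
    (hβ0 : 0 ≤ β) (hβ : ∀ x ∈ A, ∀ x' ∈ A, pg x l * qg x' m ≤ β)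
    (hM0 : 0 ≤ M) (hM : ∀ a ∈ A, ∀ b ∈ A, D a b ≤ M) :
    2 * (∑ i ∈ A ×ˢ A, (p i.1 l * q i.2 m) * D i.1 i.2) - 2 * M * ((#(A + A) : ℝ) * β +
        ∑ i ∈ A ×ˢ A, (p i.1 l * q i.2 m - pg i.1 l * qg i.2 m)) ≤
      ∑ k ∈ insertNone (primesOf A),
        ((∑ x ∈ A, ∑ y ∈ A, p x l * p y l * |lam k x - lam k y|) / (∑ x ∈ A, p x l) *
            (∑ x ∈ A, q x m) +
          (∑ x ∈ A, ∑ y ∈ A, q x m * q y m * |lam k x - lam k y|) / (∑ x ∈ A, q x m) *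
            (∑ x ∈ A, p x l) +
          (∑ x ∈ A, ∑ y ∈ A, ∑ x' ∈ A, ∑ y' ∈ A,
            p x l * p y l * (q x' m * q y' m) *
              |(lam k x - lam k x') - (lam k y - lam k y')|) /
            ((∑ x ∈ A, p x l) * (∑ x' ∈ A, q x' m))) := by
  have hp0 : ∀ x ∈ A, 0 ≤ p x l := fun x hx => (hp x hx).1.trans (hp x hx).2
  have hq0 : ∀ x ∈ A, 0 ≤ q x m := fun x hx => (hq x hx).1.trans (hq x hx).2
  set P : ℕ × ℕ → ℝ := fun i => p i.1 l * q i.2 m with hPdef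
  set Pg : ℕ × ℕ → ℝ := fun i => pg i.1 l * qg i.2 m with hPgdef
  set T : ℕ × ℕ → ℕ × ℕ → ℝ := fun i j =>
    ∑ k ∈ insertNone (primesOf A), (|lam k i.1 - lam k j.1| + |lam k i.2 - lam k j.2| +
      |(lam k i.1 - lam k i.2) - (lam k j.1 - lam k j.2)|) with hTdef
  set key : ℕ × ℕ → ℕ := fun i => i.1 + i.2 with hkey
  set F : ℕ → Finset (ℕ × ℕ) := fun u => (A ×ˢ A).filter (fun i => key i = u) with hF
  have hmem : ∀ i ∈ A ×ˢ A, i.1 ∈ A ∧ i.2 ∈ A := fun i hi => Finset.mem_product.1 hi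
  have hFm : ∀ u, ∀ i ∈ F u, i.1 ∈ A ∧ i.2 ∈ A ∧ i.1 + i.2 = u := by
    intro u i hi
    rw [hF, Finset.mem_filter] at hi
    exact ⟨(hmem i hi.1).1, (hmem i hi.1).2, hi.2⟩
  have hPle : ∀ i ∈ A ×ˢ A, 0 ≤ Pg i ∧ Pg i ≤ P i := by
    intro i hi
    obtain ⟨h1, h2⟩ := hmem i hi
    exact ⟨mul_nonneg (hp _ h1).1 (hq _ h2).1,
      mul_le_mul (hp _ h1).2 (hq _ h2).2 (hq _ h2).1 (hp0 _ h1)⟩
  -- lower bound on every cell
  have hcell : ∀ u ∈ A + A, 2 * (∑ i ∈ F u, P i * D i.1 i.2) -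
      2 * M * (β + ∑ i ∈ F u, (P i - Pg i)) ≤
      (∑ i ∈ F u, ∑ j ∈ F u, P i * P j * T i j) / (∑ i ∈ F u, P i) := by
    intro u _
    refine cnt_cell (F u) P Pg (fun i => D i.1 i.2) T M β ?_ ?_ hβ0 hM0 ?_ ?_ ?_
    · intro i hi
      exact hPle i (Finset.mem_of_mem_filter i hi)
    · intro i hi
      exact hβ _ (hFm u i hi).1 _ (hFm u i hi).2.1
    · intro i hi
      exact ⟨D_nonneg _ _, hM _ (hFm u i hi).1 _ (hFm u i hi).2.1⟩
    · intro i hi j hj hij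
      obtain ⟨i1, i2, i3⟩ := hFm u i hi
      obtain ⟨j1, j2, j3⟩ := hFm u j hj
      have p1 := (hpos _ i1).ne'
      have p2 := (hpos _ i2).ne'
      have p3 := (hpos _ j1).ne'
      have p4 := (hpos _ j2).ne'
      have hg := gap i.1 i.2 j.1 j.2 (hpos _ i1) (hpos _ i2) (hpos _ j1) (hpos _ j2)
        (by
          intro h
          apply hij
          exact Prod.ext h (by omega)) (i3.trans j3.symm)
      refine hg.trans (le_of_eq ?_)
      rw [D_eq (primesOf A) i.1 j.1 p1 p3 (sub_primesOf i1) (sub_primesOf j1),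
        D_eq (primesOf A) i.2 j.2 p2 p4 (sub_primesOf i2) (sub_primesOf j2),
        D_eq (primesOf A) (i.1 * j.2) (i.2 * j.1) (mul_ne_zero p1 p4) (mul_ne_zero p2 p3)
          (by rw [Nat.primeFactors_mul p1 p4]
              exact Finset.union_subset (sub_primesOf i1) (sub_primesOf j2))
          (by rw [Nat.primeFactors_mul p2 p3]
              exact Finset.union_subset (sub_primesOf i2) (sub_primesOf j1)),
        ← Finset.sum_add_distrib, ← Finset.sum_add_distrib]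
      refine Finset.sum_congr rfl fun k _ => ?_
      rw [lam_mul k _ _ p1 p4, lam_mul k _ _ p2 p3]
      congr 2
      ring
    · intro i _ j _
      refine Finset.sum_nonneg fun k _ => ?_
      positivity
  -- sum over the cells
  have hmaps : ∀ i ∈ A ×ˢ A, key i ∈ A + A := fun i hi =>
    Finset.add_mem_add (hmem i hi).1 (hmem i hi).2
  have hsum := Finset.sum_le_sum hcell
  rw [Finset.sum_sub_distrib, ← Finset.mul_sum, ← Finset.mul_sum, Finset.sum_add_distrib,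
    Finset.sum_fiberwise_of_maps_to hmaps, Finset.sum_fiberwise_of_maps_to hmaps,
    Finset.sum_const, nsmul_eq_mul] at hsum
  refine hsum.trans ?_
  -- expand T
  have hexp : ∀ u ∈ A + A, (∑ i ∈ F u, ∑ j ∈ F u, P i * P j * T i j) / (∑ i ∈ F u, P i) =
      ∑ k ∈ insertNone (primesOf A),
        ((∑ i ∈ F u, ∑ j ∈ F u, P i * P j * |lam k i.1 - lam k j.1|) / (∑ i ∈ F u, P i) +
        (∑ i ∈ F u, ∑ j ∈ F u, P i * P j * |lam k i.2 - lam k j.2|) / (∑ i ∈ F u, P i) +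
        (∑ i ∈ F u, ∑ j ∈ F u, P i * P j *
          |(lam k i.1 - lam k i.2) - (lam k j.1 - lam k j.2)|) / (∑ i ∈ F u, P i)) := by
    intro u _
    have e1 : ∑ i ∈ F u, ∑ j ∈ F u, P i * P j * T i j = ∑ k ∈ insertNone (primesOf A),
        (∑ i ∈ F u, ∑ j ∈ F u, P i * P j * |lam k i.1 - lam k j.1| +
        ∑ i ∈ F u, ∑ j ∈ F u, P i * P j * |lam k i.2 - lam k j.2| +
        ∑ i ∈ F u, ∑ j ∈ F u, P i * P j *
          |(lam k i.1 - lam k i.2) - (lam k j.1 - lam k j.2)|) := by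
      have e2 : ∀ i ∈ F u, ∑ j ∈ F u, P i * P j * T i j = ∑ k ∈ insertNone (primesOf A),
          (∑ j ∈ F u, P i * P j * |lam k i.1 - lam k j.1| +
          ∑ j ∈ F u, P i * P j * |lam k i.2 - lam k j.2| +
          ∑ j ∈ F u, P i * P j *
            |(lam k i.1 - lam k i.2) - (lam k j.1 - lam k j.2)|) := by
        intro i _
        have e3 : ∀ j ∈ F u, P i * P j * T i j = ∑ k ∈ insertNone (primesOf A),
            (P i * P j * |lam k i.1 - lam k j.1| + P i * P j * |lam k i.2 - lam k j.2| +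
              P i * P j * |(lam k i.1 - lam k i.2) - (lam k j.1 - lam k j.2)|) := by
          intro j _
          rw [hTdef, Finset.mul_sum]
          refine Finset.sum_congr rfl fun k _ => ?_
          ring
        rw [Finset.sum_congr rfl e3, Finset.sum_comm]
        refine Finset.sum_congr rfl fun k _ => ?_
        rw [Finset.sum_add_distrib, Finset.sum_add_distrib]
      rw [Finset.sum_congr rfl e2, Finset.sum_comm]
      refine Finset.sum_congr rfl fun k _ => ?_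
      rw [Finset.sum_add_distrib, Finset.sum_add_distrib]
    rw [e1, Finset.sum_div]
    refine Finset.sum_congr rfl fun k _ => ?_
    rw [add_div, add_div]
  rw [Finset.sum_congr rfl hexp, Finset.sum_comm]
  refine Finset.sum_le_sum fun k _ => ?_
  rw [Finset.sum_add_distrib, Finset.sum_add_distrib]
  have hW : ∑ i ∈ A ×ˢ A, P i = (∑ x ∈ A, p x l) * (∑ x ∈ A, q x m) := by
    rw [Finset.sum_product, Finset.sum_mul_sum]
  have hPn : ∀ i ∈ A ×ˢ A, 0 ≤ P i := fun i hi => (hPle i hi).1.trans (hPle i hi).2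
  have r1 := hRef (ℕ × ℕ) ℕ (A ×ˢ A) P (fun i => lam k i.1) key hPn
  have r2 := hRef (ℕ × ℕ) ℕ (A ×ˢ A) P (fun i => lam k i.2) key hPn
  have r3 := hRef (ℕ × ℕ) ℕ (A ×ˢ A) P (fun i => lam k i.1 - lam k i.2) key hPn
  rw [hW] at r1 r2 r3
  have s1 := ener1 A p l (fun x => q x m) (lam k)
  have s2 := ener2 A q m (fun x => p x l) (lam k)
  have s3 := ener3 A p q l m (lam k)
  refine add_le_add (add_le_add ?_ ?_) ?_
  · refine r1.trans (le_of_eq ?_)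
    rw [← div_aux]
    exact congrArg (fun z => z / _) s1
  · refine r2.trans (le_of_eq ?_)
    rw [← div_aux, mul_comm (∑ x ∈ A, q x m) (∑ x ∈ A, p x l)]
    exact congrArg (fun z => z / _) s2
  · refine r3.trans (le_of_eq ?_)
    exact congrArg (fun z => z / _) s3

theorem hCnt (hRef : StRef) : StCnt := by
  intro L1 L2 A S1 S2 p pg q qg M R β hpos hne hp hq hp1 hq1 hβ0 hβ hM0 hM hk
  have hst : ∀ l ∈ S1, ∀ m ∈ S2, _ := fun l hl m hm =>
    step hRef A p pg q qg M β l m hpos (fun x hx => hp x hx l hl) (fun x hx => hq x hx m hm)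
      hβ0 (fun x hx x' hx' => hβ x hx x' hx' l hl m hm) hM0 hM
  have hs := Finset.sum_le_sum fun l hl => Finset.sum_le_sum fun m hm => hst l hl m hm
  have hn1 : ∑ l ∈ S1, ∑ x ∈ A, p x l = (#A : ℝ) := by
    rw [Finset.sum_comm, Finset.sum_congr rfl hp1, Finset.sum_const, nsmul_eq_mul, mul_one]
  have hn2 : ∑ m ∈ S2, ∑ x ∈ A, q x m = (#A : ℝ) := by
    rw [Finset.sum_comm, Finset.sum_congr rfl hq1, Finset.sum_const, nsmul_eq_mul, mul_one]
  -- right hand side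
  have hright : ∑ l ∈ S1, ∑ m ∈ S2, ∑ k ∈ insertNone (primesOf A),
        ((∑ x ∈ A, ∑ y ∈ A, p x l * p y l * |lam k x - lam k y|) / (∑ x ∈ A, p x l) *
            (∑ x ∈ A, q x m) +
          (∑ x ∈ A, ∑ y ∈ A, q x m * q y m * |lam k x - lam k y|) / (∑ x ∈ A, q x m) *
            (∑ x ∈ A, p x l) +
          (∑ x ∈ A, ∑ y ∈ A, ∑ x' ∈ A, ∑ y' ∈ A,
            p x l * p y l * (q x' m * q y' m) *
              |(lam k x - lam k x') - (lam k y - lam k y')|) /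
            ((∑ x ∈ A, p x l) * (∑ x' ∈ A, q x' m))) ≤
      2 * R * ∑ a ∈ A, ∑ b ∈ A, D a b := by
    have h1 : ∀ l ∈ S1, ∑ m ∈ S2, ∑ k ∈ insertNone (primesOf A),
        ((∑ x ∈ A, ∑ y ∈ A, p x l * p y l * |lam k x - lam k y|) / (∑ x ∈ A, p x l) *
            (∑ x ∈ A, q x m) +
          (∑ x ∈ A, ∑ y ∈ A, q x m * q y m * |lam k x - lam k y|) / (∑ x ∈ A, q x m) *
            (∑ x ∈ A, p x l) +
          (∑ x ∈ A, ∑ y ∈ A, ∑ x' ∈ A, ∑ y' ∈ A,
            p x l * p y l * (q x' m * q y' m) *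
              |(lam k x - lam k x') - (lam k y - lam k y')|) /
            ((∑ x ∈ A, p x l) * (∑ x' ∈ A, q x' m))) =
        ∑ k ∈ insertNone (primesOf A),
        ((∑ x ∈ A, ∑ y ∈ A, p x l * p y l * |lam k x - lam k y|) / (∑ x ∈ A, p x l) *
            (#A : ℝ) +
          E1 A S2 q (lam k) * (∑ x ∈ A, p x l) +
          ∑ m ∈ S2, (∑ x ∈ A, ∑ y ∈ A, ∑ x' ∈ A, ∑ y' ∈ A,
            p x l * p y l * (q x' m * q y' m) *
              |(lam k x - lam k x') - (lam k y - lam k y')|) /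
            ((∑ x ∈ A, p x l) * (∑ x' ∈ A, q x' m))) := by
      intro l _
      rw [Finset.sum_comm]
      refine Finset.sum_congr rfl fun k _ => ?_
      rw [Finset.sum_add_distrib, Finset.sum_add_distrib, ← Finset.mul_sum, ← Finset.sum_mul,
        hn2, E1]
    rw [Finset.sum_congr rfl h1, Finset.sum_comm]
    have h2 : ∀ k ∈ insertNone (primesOf A), ∑ l ∈ S1,
        ((∑ x ∈ A, ∑ y ∈ A, p x l * p y l * |lam k x - lam k y|) / (∑ x ∈ A, p x l) *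
            (#A : ℝ) +
          E1 A S2 q (lam k) * (∑ x ∈ A, p x l) +
          ∑ m ∈ S2, (∑ x ∈ A, ∑ y ∈ A, ∑ x' ∈ A, ∑ y' ∈ A,
            p x l * p y l * (q x' m * q y' m) *
              |(lam k x - lam k x') - (lam k y - lam k y')|) /
            ((∑ x ∈ A, p x l) * (∑ x' ∈ A, q x' m))) ≤ 2 * R * E0 A (lam k) := by
      intro k _
      rw [Finset.sum_add_distrib, Finset.sum_add_distrib, ← Finset.mul_sum, ← Finset.sum_mul,
        hn1]
      have := hk k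
      rw [mul_comm (#A : ℝ) (E1 A S1 p (lam k)), mul_comm (#A : ℝ) (E1 A S2 q (lam k))] at this
      exact this
    refine (Finset.sum_le_sum h2).trans (le_of_eq ?_)
    rw [← Finset.mul_sum]
    congr 1
    unfold E0
    rw [Finset.sum_comm]
    refine Finset.sum_congr rfl fun a ha => ?_
    rw [Finset.sum_comm]
    refine Finset.sum_congr rfl fun b hb => ?_
    rw [D_eq (primesOf A) a b (hpos a ha).ne' (hpos b hb).ne' (sub_primesOf ha) (sub_primesOf hb)]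
  have hs2 := hs.trans hright
  -- left hand side
  have hleft : ∑ l ∈ S1, ∑ m ∈ S2, (2 * (∑ i ∈ A ×ˢ A, (p i.1 l * q i.2 m) * D i.1 i.2) -
      2 * M * ((#(A + A) : ℝ) * β +
        ∑ i ∈ A ×ˢ A, (p i.1 l * q i.2 m - pg i.1 l * qg i.2 m))) =
      2 * (∑ a ∈ A, ∑ b ∈ A, D a b) - 2 * M * ((#(A + A) : ℝ) * (#S1 : ℝ) * (#S2 : ℝ) * β +
      ∑ x ∈ A, ∑ x' ∈ A, ∑ l ∈ S1, ∑ m ∈ S2, (p x l * q x' m - pg x l * qg x' m)) := by
    have t1 : ∑ l ∈ S1, ∑ m ∈ S2, ∑ i ∈ A ×ˢ A, (p i.1 l * q i.2 m) * D i.1 i.2 =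
        ∑ a ∈ A, ∑ b ∈ A, D a b := by
      rw [swap4 A S1 S2 (fun i l m => (p i.1 l * q i.2 m) * D i.1 i.2)]
      refine Finset.sum_congr rfl fun x hx => Finset.sum_congr rfl fun y hy => ?_
      simp only []
      have : ∀ l ∈ S1, ∑ m ∈ S2, p x l * q y m * D x y = p x l * D x y := by
        intro l _
        rw [← Finset.sum_mul, ← Finset.mul_sum, hq1 y hy, mul_one]
      rw [Finset.sum_congr rfl this, ← Finset.sum_mul, hp1 x hx, one_mul]
    have t2 : ∑ l ∈ S1, ∑ m ∈ S2, ∑ i ∈ A ×ˢ A, (p i.1 l * q i.2 m - pg i.1 l * qg i.2 m) =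
        ∑ x ∈ A, ∑ x' ∈ A, ∑ l ∈ S1, ∑ m ∈ S2, (p x l * q x' m - pg x l * qg x' m) :=
      swap4 A S1 S2 (fun i l m => (p i.1 l * q i.2 m - pg i.1 l * qg i.2 m))
    have t3 : ∀ l ∈ S1, ∑ m ∈ S2, (2 * (∑ i ∈ A ×ˢ A, (p i.1 l * q i.2 m) * D i.1 i.2) -
      2 * M * ((#(A + A) : ℝ) * β +
        ∑ i ∈ A ×ˢ A, (p i.1 l * q i.2 m - pg i.1 l * qg i.2 m))) =
        2 * (∑ m ∈ S2, ∑ i ∈ A ×ˢ A, (p i.1 l * q i.2 m) * D i.1 i.2) -
        2 * M * ((#S2 : ℝ) * ((#(A + A) : ℝ) * β) +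
        ∑ m ∈ S2, ∑ i ∈ A ×ˢ A, (p i.1 l * q i.2 m - pg i.1 l * qg i.2 m)) := by
      intro l _
      rw [Finset.sum_sub_distrib, ← Finset.mul_sum, ← Finset.mul_sum, Finset.sum_add_distrib,
        Finset.sum_const, nsmul_eq_mul]
    rw [Finset.sum_congr rfl t3, Finset.sum_sub_distrib, ← Finset.mul_sum, ← Finset.mul_sum,
      Finset.sum_add_distrib, Finset.sum_const, nsmul_eq_mul, t1, t2]
    ring
  have hs3 : 2 * (∑ a ∈ A, ∑ b ∈ A, D a b) - 2 * M * ((#(A + A) : ℝ) * (#S1 : ℝ) * (#S2 : ℝ) * β +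
      ∑ x ∈ A, ∑ x' ∈ A, ∑ l ∈ S1, ∑ m ∈ S2, (p x l * q x' m - pg x l * qg x' m)) ≤
      2 * R * ∑ a ∈ A, ∑ b ∈ A, D a b := by
    rw [← hleft]
    exact hs2
  linarith

end Pool.Agent.Helper67.SR
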